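import Pool.Agent.H12.LS.Final
import Pool.Agent.H12.LS.Cnt2
import Pool.Agent.H12.LS.A1
import Pool.Agent.H12.LS.Pack
import Pool.Agent.H12.LS.Conn

/-!
# For `2 < q < 2*` the Lusternik-Schnirelmann values can be a negligible part of the `q`-spectrum

Every nonempty bounded open set `U` of `ℝ^N`, `N ≥ 2`, contains, for every `b < N / 2`, an open set
`Ω` of full measure for which at least `exp (Λ ^ b)` `q`-eigenvalues `≤ Λ` (with nonnegative
eigenfunctions) are no Lusternik-Schnirelmann values, whereas the `k`-th Lusternik-Schnirelmann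
value of a bounded set is at least `c k ^ a` for every `a < (2 N / q - N + 2) / N`. On suitable
bounded connected open sets arbitrarily many `q`-eigenvalues lie strictly between the first and the
second Lusternik-Schnirelmann value. The definitions are those of the library (`H92.QDefs`).
-/

set_option autoImplicit false

open MeasureTheory Set
open scoped ENNReal

namespace Pool.Agent.Results.MP_eb4995_an.FewLSValues

open Pool.Agent.H92.Q

/-- The `k`-th minimax value defined with an index `i` in place of the genus. -/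
noncomputable def value {N : ℕ} (i : Set (Pair N) → ℕ∞) (Ω : Set (E N)) (q : ℝ) (k : ℕ) : ℝ≥0∞ :=
  ⨅ (F : Set (Pair N)) (_ : F ⊆ Sphere Ω q) (_ : F.Nonempty) (_ : Cpt F)
    (_ : ∀ p ∈ F, -p ∈ F) (_ : (k : ℕ∞) ≤ i F), ⨆ p ∈ F, ENNReal.ofReal (dir p)

/-- For the Krasnoselskii genus these are the Lusternik-Schnirelmann values. -/
theorem value_genus {N : ℕ} (Ω : Set (E N)) (q : ℝ) (k : ℕ) : value genus Ω q k = LS Ω q k := rfl

theorem LS_le_value {N : ℕ} {Ω : Set (E N)} {q : ℝ} {i : Set (Pair N) → ℕ∞}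
    (hi : ∀ F, F ⊆ Sphere Ω q → Cpt F → (∀ p ∈ F, -p ∈ F) → i F ≤ genus F) (k : ℕ) :
    LS Ω q k ≤ value i Ω q k := by
  refine le_iInf fun F => le_iInf fun h1 => le_iInf fun h2 => le_iInf fun h3 => le_iInf fun h4 =>
    le_iInf fun h5 => ?_
  exact iInf_le_of_le F (iInf_le_of_le h1 (iInf_le_of_le h2 (iInf_le_of_le h3 (iInf_le_of_le h4
    (iInf_le_of_le (h5.trans (hi F h1 h3 h4)) le_rfl)))))

/-- **Result.** Let `N ≥ 2` and `2 < q < 2*`. (1) On every bounded set, for every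
`a < (2 N / q - N + 2) / N`, the `k`-th Lusternik-Schnirelmann value is at least `c k ^ a` with
`c > 0`. (2) For every `b < N / 2`, every nonempty bounded open set `U` contains an open set `Ω` of
full measure in `U` such that for all large `Λ` and every index `i` which is at most the genus, at
least `exp (Λ ^ b)` `q`-eigenvalues in `(0, Λ]` with nonnegative eigenfunctions are not among the
minimax values of `i`. (3) For every `m` there is a bounded connected open set with `m`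
`q`-eigenvalues with nonnegative eigenfunctions strictly between the first and all later
Lusternik-Schnirelmann values. -/
theorem result (N : ℕ) (hN : 2 ≤ N) (q : ℝ) (hq : 2 < q) (hqN : ((N : ℝ) - 2) * q < 2 * N) :
    (∀ Ω : Set (E N), Bornology.IsBounded Ω → ∀ a : ℝ, 0 < a → a < (2 * N / q - N + 2) / N →
      ∃ c : ℝ, 0 < c ∧ ∀ k : ℕ, 1 ≤ k → ENNReal.ofReal (c * (k : ℝ) ^ a) ≤ LS Ω q k) ∧
    (∀ U : Set (E N), IsOpen U → Bornology.IsBounded U → U.Nonempty →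
      ∀ b : ℝ, 0 < b → b < (N : ℝ) / 2 →
      ∃ Ω ⊆ U, IsOpen Ω ∧ volume (U \ Ω) = 0 ∧ ∃ Λ₀ : ℝ, ∀ Λ : ℝ, Λ₀ ≤ Λ →
        ∀ i : Set (Pair N) → ℕ∞,
          (∀ F, F ⊆ Sphere Ω q → Cpt F → (∀ p ∈ F, -p ∈ F) → i F ≤ genus F) →
          ∃ T : Finset ℝ, Real.exp (Λ ^ b) ≤ (T.card : ℝ) ∧ ∀ l ∈ T, 0 < l ∧ l ≤ Λ ∧
            (∃ p : Pair N, Eigen Ω q l p ∧ ∀ᵐ x, 0 ≤ p.1 x) ∧
            ∀ k : ℕ, 1 ≤ k → value i Ω q k ≠ ENNReal.ofReal l) ∧
    ∀ m : ℕ, ∃ Ω : Set (E N), IsOpen Ω ∧ Bornology.IsBounded Ω ∧ IsConnected Ω ∧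
      ∃ T : Finset ℝ, T.card = m ∧ ∀ l ∈ T, (∃ p : Pair N, Eigen Ω q l p ∧ ∀ᵐ x, 0 ≤ p.1 x) ∧
        LS Ω q 1 < ENNReal.ofReal l ∧ ∀ k : ℕ, 2 ≤ k → ENNReal.ofReal l < LS Ω q k := by
  refine ⟨fun Ω hb a a0 ha => Pool.Agent.H12.LS.grow Pool.Agent.H12.LS.stA1 hN hq hqN hb a0 ha,
    fun U oU bU nU b b0 hb => ?_, fun m => ?_⟩
  · obtain ⟨Ω, sub, oΩ, nul, L0, H⟩ := Pool.Agent.H12.LS.final Pool.Agent.H12.LS.stP
      Pool.Agent.H12.LS.Cnt2.stC2 Pool.Agent.H12.LS.stA1 hN hq hqN oU bU nU b0 hb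
    refine ⟨Ω, sub, oΩ, nul, L0, fun Λ hΛ i hi => ?_⟩
    obtain ⟨T, h1, h2⟩ := H (value i Ω q) (LS_le_value hi) Λ hΛ
    refine ⟨T, h1, fun l hl => ?_⟩
    obtain ⟨k1, k2, ⟨p, hp, pos⟩, k4⟩ := h2 l hl
    exact ⟨k1, k2, ⟨ofP p, (eigen_iff (r := ofP p) .rfl .rfl).mp hp, pos⟩, k4⟩
  · obtain ⟨Ω, h1, h2, h3, T, h4, h5⟩ := Pool.Agent.H12.LS.Conn.stConn N hN q hq hqN m
    refine ⟨Ω, h1, h2, h3, T, h4, fun l hl => ?_⟩
    obtain ⟨⟨p, hp, pos⟩, k2, k3⟩ := h5 l hl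
    exact ⟨⟨ofP p, (eigen_iff (r := ofP p) .rfl .rfl).mp hp, pos⟩, k2, k3⟩

end Pool.Agent.Results.MP_eb4995_an.FewLSValues
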